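import Mathlib
import Pool.Agent.Lib.MP_2025f4_co.Defs
import Pool.Agent.Lib.MP_2025f4_co.Proof

set_option autoImplicit false

namespace Pool.Agent.Results.MP_2025f4_co.NotHereditary

open SimpleGraph Pool.Agent.Lib.MP_2025f4_co

/-- **Weak contractibility is not closed under taking subgraphs**: there is a finite weakly
contractible graph `H` with a subgraph `H'` (even an induced one) that is not weakly
contractible. -/
theorem result : ∃ (V : Type) (_ : Fintype V) (H : SimpleGraph V) (H' : H.Subgraph),
    H'.IsInduced ∧ WeaklyContractible H ∧ ¬ WeaklyContractible H'.coe := by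
  obtain ⟨H', e, hind⟩ := (isIndContained_iff_exists_iso_subgraph).1
    (⟨embT mult_le⟩ : T (fun x => 21 * mult x) ⊴ T (fun _ => 210))
  refine ⟨_, inferInstance, T (fun _ => 210), H', hind, weaklyContractible_T 210, ?_⟩
  intro h
  have h1 : WeaklyContractible (T (fun x => 21 * mult x)) := h.of_iso e
  exact not_hasMinor mult mult_injective mult_pos (h1 _ _ _ (hasScheme _))

end Pool.Agent.Results.MP_2025f4_co.NotHereditary
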